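import Pool.Agent.H688R3.GapsInterval

/-!
# Prime gaps of length at most `240` in the intervals `(n + 4, 2 ^ (n + 4))`

The question asks for a pair of primes `p, p + 2` with `n + 4 < p < 2 ^ (n + 4)`, for every `n`.
We prove, for all large `n`, that the interval contains many pairs of consecutive primes `p < q`
with `q - p ≤ 240`, already its initial part up to `(n + 4) ^ (1 + ε)`.  The input is the theorem
`DHL[49, 2]` of `Pool.Agent.H95R2.BG` (the bound `246` in place of `240` was known).
-/

set_option autoImplicit false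

open Filter

namespace Pool.Agent.Results.MP_b51559_nt.ShortGapsInInterval

open Pool.Agent.H688R3.GapsInterval

/-- `Short p` says that `p` is prime and that the next prime `q` satisfies `q ≤ p + 240`.
(1) For all `0 < η < ε` and all large `n` there are at least `(n + 4) ^ (1 + η)` primes `p` with
`Short p`, `n + 4 < p` and `p + 240 < (n + 4) ^ (1 + ε)`; in particular `p` and the next prime lie
in the interval `(n + 4, (n + 4) ^ (1 + ε))`.  (2) For every `ε > 0` and all large `n` there are at
least `2 ^ ((1 - ε) (n + 4))` primes `p` with `Short p`, `n + 4 < p` and `p + 240 < 2 ^ (n + 4)`. -/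
theorem result :
    (∀ ε η : ℝ, 0 < η → η < ε → ∀ᶠ n : ℕ in atTop,
      ((n : ℝ) + 4) ^ (1 + η) ≤ (Set.ncard {p : ℕ | n + 4 < p ∧
        (p : ℝ) + 240 < ((n : ℝ) + 4) ^ (1 + ε) ∧ Short p} : ℝ)) ∧
    (∀ ε : ℝ, 0 < ε → ∀ᶠ n : ℕ in atTop,
      (2 : ℝ) ^ ((1 - ε) * ((n : ℝ) + 4)) ≤ (Set.ncard {p : ℕ | n + 4 < p ∧
        p + 240 < 2 ^ (n + 4) ∧ Short p} : ℝ)) := by
  refine ⟨fun ε η hη hηε => ?_, fun ε hε => ?_⟩
  · have h := (tendsto_add_atTop_nat 4).eventually (interval_rpow ε η hη hηε)
    filter_upwards [h] with n hn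
    push_cast at hn
    exact hn
  · have h := (tendsto_add_atTop_nat 4).eventually (interval_two_pow ε hε)
    filter_upwards [h] with n hn
    have hset : {p : ℕ | n + 4 < p ∧ (p : ℝ) + 240 < (2 : ℝ) ^ (n + 4) ∧ Short p} =
        {p : ℕ | n + 4 < p ∧ p + 240 < 2 ^ (n + 4) ∧ Short p} := by
      ext p
      have : (p : ℝ) + 240 < (2 : ℝ) ^ (n + 4) ↔ p + 240 < 2 ^ (n + 4) := by
        exact_mod_cast Iff.rfl
      simp only [Set.mem_ofPred_eq, this]
    rw [hset] at hn
    push_cast at hn
    exact hn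

end Pool.Agent.Results.MP_b51559_nt.ShortGapsInInterval
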